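import Pool.Agent.H28.N6.Targets

/-! # Rows LI0 and LIF -/

set_option autoImplicit false

open Matrix Pool.Agent.H28.N6

namespace Pool.Agent.H5.N6D

lemma qf_add {F ι : Type} [Field F] [Fintype ι] (G : Matrix ι ι F) (hG : G.transpose = G)
    (x y : ι → F) : qf G (x + y) = qf G x + qf G y + 2 * dotProduct (G.mulVec x) y := by
  have h1 : x ⬝ᵥ G.mulVec y = G.mulVec x ⬝ᵥ y := by
    rw [dotProduct_mulVec, ← mulVec_transpose, hG]
  have h2 : y ⬝ᵥ G.mulVec x = G.mulVec x ⬝ᵥ y := dotProduct_comm _ _
  unfold qf
  rw [mulVec_add, dotProduct_add, add_dotProduct, add_dotProduct, h1, h2]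
  ring

lemma qf_smul {F ι : Type} [Field F] [Fintype ι] (G : Matrix ι ι F) (c : F) (x : ι → F) :
    qf G (c • x) = c ^ 2 * qf G x := by
  unfold qf
  rw [mulVec_smul, dotProduct_smul, smul_dotProduct, smul_eq_mul, smul_eq_mul]
  ring

lemma qf_self {F ι : Type} [Field F] [Fintype ι] (G : Matrix ι ι F) (x : ι → F) :
    dotProduct (G.mulVec x) x = qf G x := dotProduct_comm _ _

lemma qf_comp {F ι κ : Type} [Field F] [Fintype ι] [Fintype κ] (G : Matrix ι ι F)
    (N : Matrix ι κ F) (z : κ → F) : qf (N.transpose * G * N) z = qf G (N.mulVec z) := by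
  unfold qf
  rw [← mulVec_mulVec, ← mulVec_mulVec, dotProduct_mulVec, vecMul_transpose]

theorem pf_LI0 : T_LI0 := by
  classical
  intro F _ R6 S6 y hR hS hdet hRy hSy
  let f : (Fin 6 → F) →ₗ[F] (Fin 2 → F) :=
    { toFun := fun z => ![dotProduct (R6.mulVec y) z, dotProduct (S6.mulVec y) z]
      map_add' := by
        intro a b
        funext i
        fin_cases i
        · show R6.mulVec y ⬝ᵥ (a + b) = R6.mulVec y ⬝ᵥ a + R6.mulVec y ⬝ᵥ b
          rw [dotProduct_add]
        · show S6.mulVec y ⬝ᵥ (a + b) = S6.mulVec y ⬝ᵥ a + S6.mulVec y ⬝ᵥ b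
          rw [dotProduct_add]
      map_smul' := by
        intro c a
        funext i
        fin_cases i
        · show R6.mulVec y ⬝ᵥ (c • a) = c • (R6.mulVec y ⬝ᵥ a)
          rw [dotProduct_smul]
        · show S6.mulVec y ⬝ᵥ (c • a) = c • (S6.mulVec y ⬝ᵥ a)
          rw [dotProduct_smul] }
  have hf0 : ∀ z, f z 0 = dotProduct (R6.mulVec y) z := fun z => rfl
  have hf1 : ∀ z, f z 1 = dotProduct (S6.mulVec y) z := fun z => rfl
  have hy : y ≠ 0 := by
    rintro rfl
    apply hSy
    unfold qf
    rw [zero_dotProduct]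
  have hRy0 : R6.mulVec y ≠ 0 := by
    intro h
    exact hy (eq_zero_of_mulVec_eq_zero hdet h)
  obtain ⟨z0, hz0⟩ : ∃ z0, dotProduct (R6.mulVec y) z0 ≠ 0 := by
    by_contra h
    push Not at h
    apply hRy0
    funext i
    have := h (Pi.single i 1)
    rw [dotProduct_single_one] at this
    exact this
  have hsurj : Function.Surjective f := by
    intro w
    refine ⟨(w 0 / dotProduct (R6.mulVec y) z0) • z0 + ((w 1 - (w 0 / dotProduct (R6.mulVec y) z0) *
      dotProduct (S6.mulVec y) z0) / qf S6 y) • y, ?_⟩
    funext i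
    have h1 : dotProduct (R6.mulVec y) y = 0 := (qf_self _ _).trans hRy
    have h2 : dotProduct (S6.mulVec y) y = qf S6 y := qf_self _ _
    fin_cases i
    · show dotProduct (R6.mulVec y) _ = w 0
      rw [dotProduct_add, dotProduct_smul, dotProduct_smul, h1, smul_eq_mul, smul_zero, add_zero,
        div_mul_cancel₀ _ hz0]
    · show dotProduct (S6.mulVec y) _ = w 1
      rw [dotProduct_add, dotProduct_smul, dotProduct_smul, h2, smul_eq_mul, smul_eq_mul,
        div_mul_cancel₀ _ hSy]
      ring
  have hr : Module.finrank F (LinearMap.ker f) = 4 := by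
    have h1 := LinearMap.finrank_range_add_finrank_ker f
    rw [LinearMap.range_eq_top.2 hsurj, finrank_top] at h1
    simp only [Module.finrank_fintype_fun_eq_card, Fintype.card_fin] at h1
    omega
  let bas := Module.finBasisOfFinrankEq F (LinearMap.ker f) hr
  have hN : ∀ z : Fin 4 → F, (Matrix.of fun i j => (bas j : Fin 6 → F) i).mulVec z =
      ((∑ j, z j • bas j : LinearMap.ker f) : Fin 6 → F) := by
    intro z
    funext i
    rw [Submodule.coe_sum, Finset.sum_apply]
    show ∑ j, (bas j : Fin 6 → F) i * z j = _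
    exact Finset.sum_congr rfl fun j _ => mul_comm _ _
  refine ⟨Matrix.of fun i j => (bas j : Fin 6 → F) i, fun z hz => ?_, fun z => ?_⟩
  · rw [hN] at hz
    have h1 : (∑ j, z j • bas j : LinearMap.ker f) = 0 := Subtype.ext hz
    have h2 := Fintype.linearIndependent_iff.1 bas.linearIndependent z h1
    funext i
    exact h2 i
  · rw [hN]
    have h1 : f ((∑ j, z j • bas j : LinearMap.ker f) : Fin 6 → F) = 0 :=
      LinearMap.mem_ker.1 (Subtype.mem _)
    exact ⟨congrFun h1 0, congrFun h1 1⟩

theorem pf_LIF (hLI0 : T_LI0) : T_LIF := by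
  classical
  intro F _ h2 R6 S6 s w y hR hS hdet hs hw hRy hSw
  have hSy : qf S6 y = -(s * w ^ 2) := by linear_combination hSw
  have hSy0 : qf S6 y ≠ 0 := by
    rw [hSy]
    exact neg_ne_zero.2 (mul_ne_zero hs (pow_ne_zero 2 hw))
  have hy : y ≠ 0 := by
    rintro rfl
    apply hSy0
    unfold qf
    rw [zero_dotProduct]
  obtain ⟨N, hinj, horth⟩ := hLI0 F R6 S6 y hR hS hdet hRy hSy0
  refine ⟨N.transpose * R6 * N, N.transpose * S6 * N, ?_, ?_, ?_, ?_⟩
  · rw [transpose_mul, transpose_mul, transpose_transpose, hR, Matrix.mul_assoc]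
  · rw [transpose_mul, transpose_mul, transpose_transpose, hS, Matrix.mul_assoc]
  · intro hani
    unfold Ani at hani
    push Not at hani
    obtain ⟨z, hz, hz2⟩ := hani
    rw [qf_comp] at hz2
    set v := N.mulVec z with hv
    have hv0 : v ≠ 0 := fun h => hz (hinj z h)
    have h3 : LinearIndependent F ![y, v] := by
      rw [LinearIndependent.pair_iff]
      intro a b hab
      have h4 : a * qf S6 y = 0 := by
        have h5 : dotProduct (S6.mulVec y) (a • y + b • v) = 0 := by
          rw [hab, dotProduct_zero]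
        rw [dotProduct_add, dotProduct_smul, dotProduct_smul, (horth z).2, qf_self] at h5
        simpa using h5
      have ha : a = 0 := by
        rcases mul_eq_zero.1 h4 with h | h
        · exact h
        · exact absurd h hSy0
      refine ⟨ha, ?_⟩
      rw [ha, zero_smul, zero_add] at hab
      rcases smul_eq_zero.1 hab with h | h
      · exact h
      · exact absurd h hv0
    refine ⟨Submodule.span F (Set.range ![y, v]), ?_, ?_⟩
    · rw [finrank_span_eq_card h3, Fintype.card_fin]
    · intro x hx
      rw [Matrix.range_cons, Matrix.range_cons, Matrix.range_empty, Set.union_empty] at hx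
      obtain ⟨a, b, rfl⟩ := Submodule.mem_span_pair.1 hx
      rw [qf_add R6 hR, qf_smul, qf_smul, hRy, hz2, mulVec_smul, dotProduct_smul,
        smul_dotProduct, (horth z).1]
      simp
  · intro a b
    rintro ⟨P, hP, hP0⟩
    let g : (F × P) →ₗ[F] (Fin 7 → F) :=
      { toFun := fun t => Fin.cons (t.1 * w) (t.1 • y + N.mulVec (t.2 : Fin 4 → F))
        map_add' := by
          intro t u
          funext i
          refine Fin.cases ?_ (fun i => ?_) i
          · show (t.1 + u.1) * w = t.1 * w + u.1 * w
            ring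
          · show (t.1 + u.1) * y i + N.mulVec ((t.2 : Fin 4 → F) + (u.2 : Fin 4 → F)) i =
              (t.1 * y i + N.mulVec (t.2 : Fin 4 → F) i) +
                (u.1 * y i + N.mulVec (u.2 : Fin 4 → F) i)
            rw [mulVec_add, Pi.add_apply]
            ring
        map_smul' := by
          intro c t
          funext i
          refine Fin.cases ?_ (fun i => ?_) i
          · show (c * t.1) * w = c * (t.1 * w)
            ring
          · show (c * t.1) * y i + N.mulVec (c • (t.2 : Fin 4 → F)) i =
              c * (t.1 * y i + N.mulVec (t.2 : Fin 4 → F) i)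
            rw [mulVec_smul, Pi.smul_apply, smul_eq_mul]
            ring }
    have hg : Function.Injective g := by
      rw [← LinearMap.ker_eq_bot, LinearMap.ker_eq_bot']
      rintro ⟨t, u⟩ h
      have h3 : t * w = 0 := congrFun h 0
      have ht : t = 0 := by
        rcases mul_eq_zero.1 h3 with h | h
        · exact h
        · exact absurd h hw
      have h4 : N.mulVec (u : Fin 4 → F) = 0 := by
        funext i
        have h5 : t * y i + N.mulVec (u : Fin 4 → F) i = 0 := congrFun h i.succ
        rw [ht] at h5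
        simpa using h5
      have h5 : u = 0 := Subtype.ext (hinj _ h4)
      rw [ht, h5]
      rfl
    refine ⟨LinearMap.range g, ?_, ?_⟩
    · rw [LinearMap.finrank_range_of_inj hg, Module.finrank_prod, Module.finrank_self, hP]
    · rintro z ⟨⟨t, u⟩, rfl⟩
      have e0 : g (t, u) 0 = t * w := rfl
      have e1 : Fin.tail (g (t, u)) = t • y + N.mulVec (u : Fin 4 → F) := rfl
      have h3 := hP0 u u.2
      have h4 : qf (a • (N.transpose * R6 * N) + b • (N.transpose * S6 * N)) (u : Fin 4 → F) =
          a * qf R6 (N.mulVec (u : Fin 4 → F)) + b * qf S6 (N.mulVec (u : Fin 4 → F)) := by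
        rw [← qf_comp, ← qf_comp]
        unfold qf
        rw [add_mulVec, smul_mulVec, smul_mulVec, dotProduct_add, dotProduct_smul,
          dotProduct_smul]
        rfl
      rw [h4] at h3
      rw [e0, e1, qf_add R6 hR, qf_add S6 hS, qf_smul, qf_smul, hRy, mulVec_smul, mulVec_smul,
        smul_dotProduct, smul_dotProduct, (horth _).1, (horth _).2, hSy]
      simp only [smul_zero, mul_zero, add_zero]
      linear_combination h3

end Pool.Agent.H5.N6D
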