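import Pool.Agent.H5.N6D.LI

/-! # Row MOV: moving the common zero -/

set_option autoImplicit false

open Matrix Pool.Agent.H28.N6 Topology Filter

namespace Pool.Agent.H5.N6D

lemma qf3 {F ι : Type} [Field F] [Fintype ι] (G : Matrix ι ι F) (hG : G.transpose = G)
    (y d e : ι → F) (η c : F) : qf G (y + η • d + c • e) =
      qf G y + η ^ 2 * qf G d + c ^ 2 * qf G e + 2 * η * dotProduct (G.mulVec y) d +
        2 * c * dotProduct (G.mulVec y) e + 2 * η * c * dotProduct (G.mulVec d) e := by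
  rw [qf_add G hG, qf_add G hG, qf_smul, qf_smul, mulVec_add, mulVec_smul, add_dotProduct,
    dotProduct_smul, dotProduct_smul, dotProduct_smul, smul_dotProduct]
  simp only [smul_eq_mul]
  ring

theorem pf_MOV (hSQU : T_SQU) : T_MOV := by
  classical
  intro F _ _ _ h2 R6 S6 s hR hS hdet hs y hy hRy hSy hne
  have hRy0 : R6.mulVec y ≠ 0 := by
    intro h
    exact hy (eq_zero_of_mulVec_eq_zero hdet h)
  obtain ⟨z1, hz1⟩ : ∃ z0, dotProduct (R6.mulVec y) z0 ≠ 0 := by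
    by_contra h
    push Not at h
    apply hRy0
    funext i
    have := h (Pi.single i 1)
    rw [dotProduct_single_one] at this
    exact this
  obtain ⟨z0, hz0⟩ : ∃ z0, dotProduct (R6.mulVec y) z0 = 1 := by
    refine ⟨(dotProduct (R6.mulVec y) z1)⁻¹ • z1, ?_⟩
    rw [dotProduct_smul, smul_eq_mul, inv_mul_cancel₀ hz1]
  obtain ⟨u, hu⟩ : ∃ u, dotProduct (S6.mulVec y - dotProduct (S6.mulVec y) z0 • R6.mulVec y) u
      ≠ 0 := by
    by_contra h
    push Not at h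
    apply hne (dotProduct (S6.mulVec y) z0)
    rw [← sub_eq_zero]
    funext i
    have := h (Pi.single i 1)
    rw [dotProduct_single_one] at this
    exact this
  set d := u - dotProduct (R6.mulVec y) u • z0 with hd
  have hrd : dotProduct (R6.mulVec y) d = 0 := by
    rw [hd, dotProduct_sub, dotProduct_smul, hz0, smul_eq_mul, mul_one, sub_self]
  have hsd : dotProduct (S6.mulVec y) d ≠ 0 := by
    rw [sub_dotProduct, smul_dotProduct, smul_eq_mul] at hu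
    rw [hd, dotProduct_sub, dotProduct_smul, smul_eq_mul]
    intro h
    apply hu
    linear_combination h
  set e := z0 + (-(qf R6 z0) / 2) • y with he
  have hre : dotProduct (R6.mulVec y) e = 1 := by
    rw [he, dotProduct_add, dotProduct_smul, hz0, qf_self, hRy, smul_zero, add_zero]
  have hRe : qf R6 e = 0 := by
    rw [he, qf_add R6 hR, qf_smul, hRy, dotProduct_smul, smul_eq_mul]
    have h3 : dotProduct (R6.mulVec z0) y = 1 := by
      rw [← hz0]
      unfold dotProduct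
      have : R6.mulVec z0 ⬝ᵥ y = z0 ⬝ᵥ R6.mulVec y := by
        rw [dotProduct_mulVec, ← mulVec_transpose, hR]
      exact this.trans (dotProduct_comm _ _)
    rw [h3]
    field_simp
    ring
  set σ := dotProduct (S6.mulVec y) d with hσ
  set κ := -s / (2 * σ) with hκ
  set a1 := qf R6 d
  set a2 := dotProduct (R6.mulVec d) e
  set b1 := qf S6 d
  set b2 := qf S6 e
  set b3 := dotProduct (S6.mulVec y) e
  set b4 := dotProduct (S6.mulVec d) e
  let ρ : F → F := fun l => 1 + κ * l ^ 2 * a2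
  let γ : F → F := fun l => -a1 / (2 * ρ l)
  let ψ : F → F := fun l => 1 + κ * l ^ 2 *
    ((b1 + (κ * l ^ 2) ^ 2 * (γ l) ^ 2 * b2 + 2 * γ l * b3 + 2 * (κ * l ^ 2) * γ l * b4) /
      (2 * σ))
  have hρc : Continuous ρ := by fun_prop
  have hρ0 : ρ 0 = 1 := by simp [ρ]
  have hγc : ContinuousAt γ 0 := by
    refine ContinuousAt.div continuousAt_const (continuousAt_const.mul hρc.continuousAt) ?_
    rw [hρ0, mul_one]
    exact h2
  have hψc : ContinuousAt ψ 0 := by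
    have h3 : ContinuousAt (fun l : F => κ * l ^ 2) 0 := by fun_prop
    refine continuousAt_const.add (h3.mul (ContinuousAt.div_const ?_ _))
    refine ((continuousAt_const.add (((h3.pow 2).mul (hγc.pow 2)).mul continuousAt_const)).add
      ((continuousAt_const.mul hγc).mul continuousAt_const)).add
      (((continuousAt_const.mul h3).mul hγc).mul continuousAt_const)
  have hψ0 : ψ 0 = 1 := by simp [ψ]
  obtain ⟨δ, hδ, hsq⟩ := hSQU F h2
  have ev1 : ∀ᶠ l in 𝓝 (0 : F), ρ l ≠ 0 :=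
    hρc.continuousAt.eventually_ne (by rw [hρ0]; exact one_ne_zero)
  have ev2 : ∀ᶠ l in 𝓝 (0 : F), ‖ψ l - 1‖ < δ := by
    have h3 := Metric.continuousAt_iff.1 hψc δ hδ
    obtain ⟨ε, hε, h3⟩ := h3
    filter_upwards [Metric.ball_mem_nhds (0 : F) hε] with l hl
    have := h3 hl
    rwa [hψ0, dist_eq_norm] at this
  have ev3 : ∀ᶠ l in 𝓝[≠] (0 : F), l ≠ 0 ∧ ρ l ≠ 0 ∧ ‖ψ l - 1‖ < δ := by
    filter_upwards [self_mem_nhdsWithin, mem_nhdsWithin_of_mem_nhds ev1,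
      mem_nhdsWithin_of_mem_nhds ev2] with l h3 h4 h5
    exact ⟨h3, h4, h5⟩
  obtain ⟨l, hl0, hρl, hψl⟩ := ev3.exists
  obtain ⟨x, hx, hx1⟩ := hsq _ hψl
  have hx0 : x ≠ 0 := by
    rintro rfl
    rw [zero_sub, norm_neg, norm_one] at hx1
    exact lt_irrefl _ hx1
  have hσ0 : σ ≠ 0 := hsd
  refine ⟨y + (κ * l ^ 2) • d + ((κ * l ^ 2) ^ 2 * γ l) • e, l * x, mul_ne_zero hl0 hx0, ?_, ?_⟩
  · rw [qf3 R6 hR, hRy, hRe, hrd, hre]
    have h3 : 2 * γ l * ρ l = -a1 := by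
      show 2 * (-a1 / (2 * ρ l)) * ρ l = -a1
      field_simp
    have h4 : ρ l = 1 + κ * l ^ 2 * a2 := rfl
    rw [h4] at h3
    show 0 + (κ * l ^ 2) ^ 2 * a1 + ((κ * l ^ 2) ^ 2 * γ l) ^ 2 * 0 + 2 * (κ * l ^ 2) * 0 +
      2 * ((κ * l ^ 2) ^ 2 * γ l) * 1 + 2 * (κ * l ^ 2) * ((κ * l ^ 2) ^ 2 * γ l) * a2 = 0
    linear_combination (κ * l ^ 2) ^ 2 * h3
  · rw [qf3 S6 hS, hSy]
    have h3 : ψ l = x ^ 2 := hx
    have h4 : ψ l = 1 + κ * l ^ 2 *
      ((b1 + (κ * l ^ 2) ^ 2 * (γ l) ^ 2 * b2 + 2 * γ l * b3 + 2 * (κ * l ^ 2) * γ l * b4) /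
      (2 * σ)) := rfl
    have h5 : κ * (2 * σ) = -s := by
      rw [hκ]
      field_simp
    show s * (l * x) ^ 2 + (0 + (κ * l ^ 2) ^ 2 * b1 + ((κ * l ^ 2) ^ 2 * γ l) ^ 2 * b2 +
      2 * (κ * l ^ 2) * σ + 2 * ((κ * l ^ 2) ^ 2 * γ l) * b3 +
      2 * (κ * l ^ 2) * ((κ * l ^ 2) ^ 2 * γ l) * b4) = 0
    have h6 : (2 * σ) ≠ 0 := mul_ne_zero h2 hσ0
    have h7 : s = -(κ * (2 * σ)) := by rw [h5]; ring
    rw [mul_pow, ← h3, h4]
    set Q := b1 + (κ * l ^ 2) ^ 2 * (γ l) ^ 2 * b2 + 2 * γ l * b3 + 2 * (κ * l ^ 2) * γ l * b4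
      with hQ
    have h8 : s * (l ^ 2 * (1 + κ * l ^ 2 * (Q / (2 * σ)))) =
        s * l ^ 2 + s * l ^ 2 * κ * l ^ 2 * (Q / (2 * σ)) := by ring
    have h9 : s * l ^ 2 * κ * l ^ 2 * (Q / (2 * σ)) = -((κ * l ^ 2) ^ 2 * Q) := by
      rw [h7]
      field_simp
    rw [h8, h9, h7, hQ]
    ring

end Pool.Agent.H5.N6D
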